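import Pool.Agent.H15.FOS.Targets

/-!
# MP_70ba79_ag: homogeneous integral equations (row HRL of the board `fos_modules`)
-/

set_option autoImplicit false

open MvPolynomial SC Pool.Agent.H27.LV
open Pool.Agent.H84.SM (dp cr dt)
open Pool.Agent.H92.SF Pool.Agent.H3.SF Pool.Agent.H15.FOS

namespace Pool.Agent.H13.FOS

/-- eigenvectors for different eigenvalues are independent -/
theorem eig {A : Type} [CommRing A] [IsDomain A] [CharZero A] (E : A →+ A) (s : Finset ℕ) :
    ∀ r : ℕ → A, (∀ w, E (r w) = (w : A) * r w) → ∑ w ∈ s, r w = 0 → ∀ w ∈ s, r w = 0 := by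
  classical
  induction s using Finset.induction_on with
  | empty => intro r _ _ w hw; simp at hw
  | insert w0 s hw0 ih =>
    intro r hr hs
    rw [Finset.sum_insert hw0] at hs
    have h1 : (w0 : A) * r w0 + ∑ w ∈ s, (w : A) * r w = 0 := by
      have h := congrArg E hs
      rw [map_add, map_sum, map_zero, hr] at h
      rw [← h]
      congr 1
      exact Finset.sum_congr rfl fun w _ => (hr w).symm
    have h2 : ∑ w ∈ s, (((w : ℤ) - (w0 : ℤ)) • r w) = 0 := by
      have h3 : ∑ w ∈ s, (((w : ℤ) - (w0 : ℤ)) • r w) =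
          ((w0 : A) * r w0 + ∑ w ∈ s, (w : A) * r w) - (w0 : A) * (r w0 + ∑ w ∈ s, r w) := by
        rw [mul_add, Finset.mul_sum, add_sub_add_left_eq_sub, ← Finset.sum_sub_distrib]
        refine Finset.sum_congr rfl fun w _ => ?_
        rw [zsmul_eq_mul]
        push_cast
        ring
      rw [h3, h1, hs, mul_zero, sub_zero]
    have h4 := ih (fun w => ((w : ℤ) - (w0 : ℤ)) • r w) (fun w => by
      rw [map_zsmul, hr, mul_smul_comm]) h2
    have h5 : ∀ w ∈ s, r w = 0 := by
      intro w hw
      have h6 := h4 w hw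
      change ((w : ℤ) - (w0 : ℤ)) • r w = 0 at h6
      rw [zsmul_eq_mul] at h6
      rcases mul_eq_zero.1 h6 with h | h
      · exfalso
        have h7 : ((w : ℤ) - (w0 : ℤ)) = 0 := by exact_mod_cast h
        have h8 : w = w0 := by omega
        exact hw0 (h8 ▸ hw)
      · exact h
    have h9 : r w0 = 0 := by
      rw [Finset.sum_eq_zero h5, add_zero] at hs
      exact hs
    intro w hw
    rcases Finset.mem_insert.1 hw with h | h
    · rw [h]; exact h9
    · exact h5 w h

theorem fos_HRL : T_HRL := by
  classical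
  intro κ A _ _ _ _ f u E P e hP hE hint
  obtain ⟨p, hp, hev⟩ := hint
  set Ev := eval₂Hom f u with hEv
  set n := p.natDegree with hn
  have hn0 : 0 < n := by
    rcases Nat.eq_zero_or_pos n with h | h
    · exfalso
      have h1 : p = 1 := by
        rw [hn] at h
        exact (hp.natDegree_eq_zero).1 h
      rw [h1, Polynomial.eval₂_one] at hev
      exact one_ne_zero hev
    · exact h
  rw [Polynomial.eval₂_eq_sum_range] at hev
  -- the homogeneous parts
  let t : ℕ → (Fin 3 →₀ ℕ) → A := fun i a => Ev (monomial a (coeff a (p.coeff i))) * P ^ i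
  let r : ℕ → A := fun w => ∑ i ∈ Finset.range (n + 1),
    ∑ a ∈ (p.coeff i).support with a.degree + i * e = w, t i a
  have hr : ∀ w, E (r w) = (w : A) * r w := by
    intro w
    change E (∑ i ∈ Finset.range (n + 1),
      ∑ a ∈ (p.coeff i).support with a.degree + i * e = w, t i a) = (w : A) *
      ∑ i ∈ Finset.range (n + 1), ∑ a ∈ (p.coeff i).support with a.degree + i * e = w, t i a
    rw [map_sum, Finset.mul_sum]
    refine Finset.sum_congr rfl fun i _ => ?_
    rw [map_sum, Finset.mul_sum]
    refine Finset.sum_congr rfl fun a ha => ?_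
    rw [Finset.mem_filter] at ha
    change E (Ev (monomial a (coeff a (p.coeff i))) * P ^ i) = _
    rw [hE, ha.2]
  obtain ⟨M, hM⟩ : ∃ M, ∀ i ∈ Finset.range (n + 1), ∀ a ∈ (p.coeff i).support,
      a.degree + i * e < M := by
    refine ⟨(Finset.range (n + 1)).sup (fun i => (p.coeff i).support.sup
      (fun a => a.degree + i * e)) + 1, fun i hi a ha => Nat.lt_succ_of_le ?_⟩
    exact le_trans (Finset.le_sup (f := fun a : Fin 3 →₀ ℕ => a.degree + i * e) ha)
      (Finset.le_sup (f := fun i => (p.coeff i).support.sup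
        (fun a : Fin 3 →₀ ℕ => a.degree + i * e)) hi)
  have hexp : ∀ q : MvPolynomial (Fin 3) κ, Ev q = ∑ a ∈ q.support, Ev (monomial a (coeff a q)) := by
    intro q
    conv_lhs => rw [← support_sum_monomial_coeff q]
    rw [map_sum]
  have hsum : ∑ w ∈ Finset.range M, r w = 0 := by
    change ∑ w ∈ Finset.range M, ∑ i ∈ Finset.range (n + 1),
      ∑ a ∈ (p.coeff i).support with a.degree + i * e = w, t i a = 0
    rw [Finset.sum_comm, ← hev]
    refine Finset.sum_congr rfl fun i hi => ?_
    rw [Finset.sum_fiberwise_of_maps_to (g := fun a : Fin 3 →₀ ℕ => a.degree + i * e)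
      (fun a ha => Finset.mem_range.2 (hM i hi a ha)) (fun a => t i a)]
    change ∑ a ∈ (p.coeff i).support, Ev (monomial a (coeff a (p.coeff i))) * P ^ i = _
    rw [← Finset.sum_mul, ← hexp]
  have hne : r (n * e) = 0 := by
    by_cases h : n * e < M
    · exact eig E _ r hr hsum _ (Finset.mem_range.2 h)
    · exfalso
      apply h
      have hc : coeff 0 (p.coeff n) = 1 := by
        have : p.coeff n = 1 := hp
        rw [this, coeff_zero_one]
      have h0 : (0 : Fin 3 →₀ ℕ) ∈ (p.coeff n).support := by
        rw [mem_support_iff, hc]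
        intro h1
        -- `κ` is not trivial
        have h2 : (f 1 : A) = 0 := by rw [h1, map_zero]
        rw [map_one] at h2
        exact one_ne_zero h2
      have h3 := hM n (Finset.mem_range.2 (Nat.lt_succ_self n)) 0 h0
      simpa using h3
  have hEq0 : P ^ n + ∑ i ∈ Finset.range n,
      Ev (homogeneousComponent ((n - i) * e) (p.coeff i)) * P ^ i = 0 := by
    rw [← hne]
    change _ = ∑ i ∈ Finset.range (n + 1),
      ∑ a ∈ (p.coeff i).support with a.degree + i * e = n * e, t i a
    rw [Finset.sum_range_succ, add_comm]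
    congr 1
    · refine Finset.sum_congr rfl fun i hi => ?_
      rw [homogeneousComponent_apply, map_sum, Finset.sum_mul]
      have hi' := Finset.mem_range.1 hi
      have hs : (p.coeff i).support.filter (fun a => a.degree = (n - i) * e) =
          (p.coeff i).support.filter (fun a => a.degree + i * e = n * e) := by
        refine Finset.filter_congr fun a _ => ?_
        have h1 : (n - i) * e + i * e = n * e := by
          rw [← add_mul, Nat.sub_add_cancel hi'.le]
        constructor
        · intro h; rw [h, h1]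
        · intro h; omega
      rw [hs]
    · have h1 : p.coeff n = 1 := hp
      rw [h1]
      have h2 : ((1 : MvPolynomial (Fin 3) κ).support).filter
          (fun a : Fin 3 →₀ ℕ => a.degree + n * e = n * e) =
          (1 : MvPolynomial (Fin 3) κ).support := by
        refine Finset.filter_true_of_mem fun a ha => ?_
        rw [mem_support_iff, coeff_one] at ha
        have : a = 0 := by
          by_contra h
          rw [if_neg (Ne.symm h)] at ha
          exact ha rfl
        rw [this]
        simp
      rw [h2]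
      change P ^ n = ∑ a ∈ (1 : MvPolynomial (Fin 3) κ).support,
        Ev (monomial a (coeff a (p.coeff n))) * P ^ n
      rw [h1, ← Finset.sum_mul, ← hexp, map_one, one_mul]
  -- a minimal equation
  have hex : ∃ N, 0 < N ∧ ∃ q : ℕ → MvPolynomial (Fin 3) κ,
      (∀ i, i < N → (q i).IsHomogeneous ((N - i) * e)) ∧
      P ^ N + ∑ i ∈ Finset.range N, Ev (q i) * P ^ i = 0 :=
    ⟨n, hn0, fun i => homogeneousComponent ((n - i) * e) (p.coeff i),
      fun i _ => homogeneousComponent_isHomogeneous _ _, hEq0⟩
  obtain ⟨hN0, q, hq, hqe⟩ := Nat.find_spec hex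
  refine ⟨Nat.find hex, q, hN0, hq, ?_, hqe⟩
  intro h0
  obtain ⟨N', hN'⟩ : ∃ N', Nat.find hex = N' + 1 := ⟨Nat.find hex - 1, by omega⟩
  rw [hN', Finset.sum_range_succ', h0, map_zero, zero_mul, add_zero] at hqe
  have h1 : P * (P ^ N' + ∑ i ∈ Finset.range N', Ev (q (i + 1)) * P ^ i) = 0 := by
    rw [mul_add, Finset.mul_sum, ← hqe, pow_succ']
    congr 1
    refine Finset.sum_congr rfl fun i _ => ?_
    ring
  have h2 := (mul_eq_zero.1 h1).resolve_left hP
  rcases Nat.eq_zero_or_pos N' with h3 | h3
  · rw [h3] at h2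
    simp at h2
  · refine Nat.find_min hex (m := N') (by omega) ⟨h3, fun i => q (i + 1), fun i hi => ?_, h2⟩
    have h4 := hq (i + 1) (by omega)
    rw [hN', Nat.add_sub_add_right] at h4
    exact h4

end Pool.Agent.H13.FOS
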